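import Pool.Agent.H75.RW.Targets

/-!
# Row CHM of the board `rwd_modules` (MP_c95a35_lc)
-/

set_option autoImplicit false

open List Pool.Agent.H68.TG Pool.Agent.H75.RW

namespace Pool.Agent.H35.RW

private theorem ind_bound (a r1 r2 : ℝ) (ha : 0 < a) :
    ind (a ≤ |r1 + r2|) ≤ 4 / a ^ 2 * r1 ^ 2 + 4 / a ^ 2 * r2 ^ 2 := by
  by_cases h : a ≤ |r1 + r2|
  · rw [ind_of _ h]
    have h1 : a ^ 2 ≤ (r1 + r2) ^ 2 := by
      rw [← sq_abs (r1 + r2)]
      exact pow_le_pow_left₀ ha.le h 2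
    have h2 : a ^ 2 ≤ 4 * r1 ^ 2 + 4 * r2 ^ 2 := by nlinarith [sq_nonneg (r1 - r2)]
    have h3 : 4 / a ^ 2 * r1 ^ 2 + 4 / a ^ 2 * r2 ^ 2 = (4 * r1 ^ 2 + 4 * r2 ^ 2) / a ^ 2 := by
      ring
    rw [h3, le_div_iff₀ (by positivity)]
    linarith
  · rw [ind_not _ h]
    positivity

theorem pf_CHM (hVAR : T_VAR) (hCIA : T_CIA) (hCIB : T_CIB) : T_CHM := by
  intro t m n s F M a ha hm hn hF
  obtain ⟨X, hX⟩ : ∃ X : ℝ, X = (9 / 2) ^ (t + 2) := ⟨_, rfl⟩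
  have hX0 : 0 < X := by rw [hX]; positivity
  obtain ⟨S, hS⟩ : ∃ S : ℝ, S = ∑ σ, ∑ c, F σ c ^ 2 := ⟨_, rfl⟩
  have hS0 : 0 ≤ S := by
    rw [hS]
    exact Finset.sum_nonneg fun _ _ => Finset.sum_nonneg fun _ _ => sq_nonneg _
  have v1 := hVAR t m F M hF
  have v2 := hVAR t n F M hF
  rw [← hX, ← hS] at v1 v2
  rw [← hX, ← hS]
  obtain ⟨H1, hH1⟩ : ∃ H1 : V (t + 2) → List (Fin 3) → ℝ,
      H1 = fun σ y => 4 / a ^ 2 * (SS (t + 2) F σ y - m * M) ^ 2 := ⟨_, rfl⟩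
  obtain ⟨H2, hH2⟩ : ∃ H2 : V (t + 2) → List (Fin 3) → ℝ,
      H2 = fun σ z => 4 / a ^ 2 * (SS (t + 2) F σ z - n * M) ^ 2 := ⟨_, rfl⟩
  have c1 := hCIA t m n s H1 (by intro σ x; rw [hH1]; positivity) hn
  have c2 := hCIB t m n s H2 (by intro σ x; rw [hH2]; positivity) hm
  have s1 : ∑ σ, avg m (fun y => H1 σ y) ≤ 4 / a ^ 2 * (20000 * X * m * S / 3) := by
    have h1 : ∀ σ, avg m (fun y => H1 σ y) =
        4 / a ^ 2 * avg m (fun y => (SS (t + 2) F σ y - m * M) ^ 2) := by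
      intro σ
      rw [hH1]
      exact avg_mul m _ _
    rw [Finset.sum_congr rfl fun σ _ => h1 σ, ← Finset.mul_sum]
    exact mul_le_mul_of_nonneg_left v1 (by positivity)
  have s2 : ∑ σ, avg n (fun z => H2 σ z) ≤ 4 / a ^ 2 * (20000 * X * n * S / 3) := by
    have h1 : ∀ σ, avg n (fun z => H2 σ z) =
        4 / a ^ 2 * avg n (fun z => (SS (t + 2) F σ z - n * M) ^ 2) := by
      intro σ
      rw [hH2]
      exact avg_mul n _ _
    rw [Finset.sum_congr rfl fun σ _ => h1 σ, ← Finset.mul_sum]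
    exact mul_le_mul_of_nonneg_left v2 (by positivity)
  have hmain : avg (m + n) (fun x =>
      ind (a ≤ |SS (t + 2) F (cs (t + 2) s (W x)) x - ((m : ℝ) + n) * M|)) ≤
      avg m (fun y => avg n (fun z => H1 (cs (t + 2) s (W (y ++ z))) y)) +
      avg m (fun y => avg n (fun z =>
        H2 (ms (t + 2) (W y) (cs (t + 2) s (W (y ++ z)))) z)) := by
    rw [avg_append, ← avg_add]
    refine avg_mono m _ _ fun y _ => ?_
    rw [← avg_add]
    refine avg_mono n _ _ fun z _ => ?_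
    rw [hH1, hH2, SS_append]
    have e : SS (t + 2) F (cs (t + 2) s (W (y ++ z))) y +
        SS (t + 2) F (ms (t + 2) (W y) (cs (t + 2) s (W (y ++ z)))) z - ((m : ℝ) + n) * M =
        (SS (t + 2) F (cs (t + 2) s (W (y ++ z))) y - m * M) +
        (SS (t + 2) F (ms (t + 2) (W y) (cs (t + 2) s (W (y ++ z)))) z - n * M) := by ring
    rw [e]
    exact ind_bound a _ _ ha
  refine hmain.trans ((add_le_add c1 c2).trans ?_)
  have h2t : (0 : ℝ) < 2 ^ (t + 2) := by positivity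
  have d1 : 6 / 2 ^ (t + 2) * ∑ σ, avg m (fun y => H1 σ y) ≤
      6 / 2 ^ (t + 2) * (4 / a ^ 2 * (20000 * X * m * S / 3)) :=
    mul_le_mul_of_nonneg_left s1 (by positivity)
  have d2 : 3 / 2 ^ (t + 2) * ∑ σ, avg n (fun z => H2 σ z) ≤
      3 / 2 ^ (t + 2) * (4 / a ^ 2 * (20000 * X * n * S / 3)) :=
    mul_le_mul_of_nonneg_left s2 (by positivity)
  refine (add_le_add d1 d2).trans ?_
  have e1 : 6 / 2 ^ (t + 2) * (4 / a ^ 2 * (20000 * X * m * S / 3)) =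
      160000 * X * m * S / (2 ^ (t + 2) * a ^ 2) := by
    field_simp
    ring
  have e2 : 3 / 2 ^ (t + 2) * (4 / a ^ 2 * (20000 * X * n * S / 3)) =
      80000 * X * n * S / (2 ^ (t + 2) * a ^ 2) := by
    field_simp
    ring
  rw [e1, e2, ← add_div]
  apply div_le_div_of_nonneg_right _ (by positivity)
  have : 0 ≤ X * n * S := by positivity
  nlinarith

end Pool.Agent.H35.RW
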