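import Pool.Agent.H75.RW.Targets

/-!
# Row CON of the board `rwd_modules` (MP_c95a35_lc)
-/

set_option autoImplicit false

open List Pool.Agent.H68.TG Pool.Agent.H75.RW

namespace Pool.Agent.H35.RW

private theorem nine (a b c d v5 v6 g h i v4 v2 : ℝ) (hd : d = v4) (hb : b = v2) :
    (((a + b + c) / 3 + (d + v5 + v6) / 3 + (g + h + i) / 3) / 3) ^ 2 ≤
      (a ^ 2 + b ^ 2 + c ^ 2 + d ^ 2 + v5 ^ 2 + v6 ^ 2 + g ^ 2 + h ^ 2 + i ^ 2) / 9 -
      ((v5 - v6) ^ 2 + (v5 - v4) ^ 2 + (v5 - v2) ^ 2) / 81 := by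
  subst hd hb
  nlinarith [sq_nonneg (a - b), sq_nonneg (a - c), sq_nonneg (a - d), sq_nonneg (a - v5),
    sq_nonneg (a - v6), sq_nonneg (a - g), sq_nonneg (a - h), sq_nonneg (a - i),
    sq_nonneg (b - c), sq_nonneg (b - d), sq_nonneg (b - v6), sq_nonneg (b - g),
    sq_nonneg (b - h), sq_nonneg (b - i), sq_nonneg (c - d), sq_nonneg (c - v5),
    sq_nonneg (c - v6), sq_nonneg (c - g), sq_nonneg (c - h), sq_nonneg (c - i),
    sq_nonneg (d - v6), sq_nonneg (d - g), sq_nonneg (d - h), sq_nonneg (d - i),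
    sq_nonneg (v5 - g), sq_nonneg (v5 - h), sq_nonneg (v5 - i), sq_nonneg (v6 - g),
    sq_nonneg (v6 - h), sq_nonneg (v6 - i), sq_nonneg (g - h), sq_nonneg (g - i),
    sq_nonneg (h - i)]

private theorem three (a b c : ℝ) : (a + b + c) ^ 2 ≤ 3 * (a ^ 2 + b ^ 2 + c ^ 2) := by
  nlinarith [sq_nonneg (a - b), sq_nonneg (a - c), sq_nonneg (b - c)]

theorem pf_CON (hGAP : T_GAP) (hCHI : T_CHI) : T_CON := by
  intro t f hf hcf
  obtain ⟨hc2, hc0, hcA, hcD, -⟩ := hCHI t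
  obtain ⟨X, hX⟩ : ∃ X : ℝ, X = (9 / 2) ^ (t + 2) := ⟨_, rfl⟩
  have hX0 : 0 < X := by rw [hX]; positivity
  obtain ⟨A, hA⟩ : ∃ A : V (t + 2) → V (t + 2), A = ms (t + 2) [false] := ⟨_, rfl⟩
  obtain ⟨D, hD⟩ : ∃ D : V (t + 2) → V (t + 2), D = ms (t + 2) [true] := ⟨_, rfl⟩
  have hA3 : ∀ σ, ms (t + 2) (img 2) σ = A (A (A σ)) := by
    intro σ
    have h1 : img 2 = [false] ++ ([false] ++ [false]) := rfl
    rw [h1, ms_append, ms_append, hA]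
  have hA1 : ∀ σ, ms (t + 2) (img 1) σ = A σ := fun σ => by rw [hA]; rfl
  have hD1 : ∀ σ, ms (t + 2) (img 0) σ = D σ := fun σ => by rw [hD]; rfl
  have sA : ∀ g : V (t + 2) → ℝ, ∑ σ, g (A σ) = ∑ σ, g σ := fun g => by
    rw [hA]; exact sum_ms _ _ g
  have sD : ∀ g : V (t + 2) → ℝ, ∑ σ, g (D σ) = ∑ σ, g σ := fun g => by
    rw [hD]; exact sum_ms _ _ g
  have hP : ∀ (g : V (t + 2) → ℝ) (σ : V (t + 2)),
      P (t + 2) g σ = (g (D σ) + g (A σ) + g (A (A (A σ)))) / 3 := by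
    intro g σ
    unfold P
    rw [hD1, hA1, hA3]
  obtain ⟨E1, hE1⟩ : ∃ E1 : ℝ, E1 = ∑ σ, (f σ - f (A (A σ))) ^ 2 := ⟨_, rfl⟩
  obtain ⟨E2, hE2⟩ : ∃ E2 : ℝ, E2 = ∑ σ, (f (A σ) - f (D σ)) ^ 2 := ⟨_, rfl⟩
  obtain ⟨E3, hE3⟩ : ∃ E3 : ℝ, E3 = ∑ σ, (f (A (A σ)) - f (A (D σ))) ^ 2 := ⟨_, rfl⟩
  obtain ⟨F, hF⟩ : ∃ F : ℝ, F = ∑ σ, f σ ^ 2 := ⟨_, rfl⟩
  have e10 : 0 ≤ E1 := by rw [hE1]; exact Finset.sum_nonneg fun _ _ => sq_nonneg _
  have e20 : 0 ≤ E2 := by rw [hE2]; exact Finset.sum_nonneg fun _ _ => sq_nonneg _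
  have e30 : 0 ≤ E3 := by rw [hE3]; exact Finset.sum_nonneg fun _ _ => sq_nonneg _
  -- upper bound
  have up : ∑ σ, P (t + 2) (P (t + 2) f) σ ^ 2 ≤ F - (E1 + E2 + E3) / 81 := by
    have h1 : ∀ σ, P (t + 2) (P (t + 2) f) σ ^ 2 ≤
        (f (D (D σ)) ^ 2 + f (A (D σ)) ^ 2 + f (A (A (A (D σ)))) ^ 2 +
          f (D (A σ)) ^ 2 + f (A (A σ)) ^ 2 + f (A (A (A (A σ)))) ^ 2 +
          f (D (A (A (A σ)))) ^ 2 + f (A (A (A (A σ)))) ^ 2 +
          f (A (A (A (A (A (A σ)))))) ^ 2) / 9 -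
        ((f (A (A σ)) - f (A (A (A (A σ))))) ^ 2 + (f (A (A σ)) - f (D (A σ))) ^ 2 +
          (f (A (A σ)) - f (A (D σ))) ^ 2) / 81 := by
      intro σ
      rw [hP, hP, hP, hP]
      exact nine _ _ _ _ _ _ _ _ _ _ _ rfl rfl
    refine (Finset.sum_le_sum fun σ _ => h1 σ).trans (le_of_eq ?_)
    rw [Finset.sum_sub_distrib, ← Finset.sum_div, ← Finset.sum_div]
    simp only [Finset.sum_add_distrib]
    have c1 : ∑ σ, f (D (D σ)) ^ 2 = F := by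
      rw [sD (fun σ => f (D σ) ^ 2), sD (fun σ => f σ ^ 2), hF]
    have c2 : ∑ σ, f (A (D σ)) ^ 2 = F := by
      rw [sD (fun σ => f (A σ) ^ 2), sA (fun σ => f σ ^ 2), hF]
    have c3 : ∑ σ, f (A (A (A (D σ)))) ^ 2 = F := by
      rw [sD (fun σ => f (A (A (A σ))) ^ 2), sA (fun σ => f (A (A σ)) ^ 2),
        sA (fun σ => f (A σ) ^ 2), sA (fun σ => f σ ^ 2), hF]
    have c4 : ∑ σ, f (D (A σ)) ^ 2 = F := by
      rw [sA (fun σ => f (D σ) ^ 2), sD (fun σ => f σ ^ 2), hF]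
    have c5 : ∑ σ, f (A (A σ)) ^ 2 = F := by
      rw [sA (fun σ => f (A σ) ^ 2), sA (fun σ => f σ ^ 2), hF]
    have c6 : ∑ σ, f (A (A (A (A σ)))) ^ 2 = F := by
      rw [sA (fun σ => f (A (A (A σ))) ^ 2), sA (fun σ => f (A (A σ)) ^ 2), c5]
    have c7 : ∑ σ, f (D (A (A (A σ)))) ^ 2 = F := by
      rw [sA (fun σ => f (D (A (A σ))) ^ 2), sA (fun σ => f (D (A σ)) ^ 2), c4]
    have c9 : ∑ σ, f (A (A (A (A (A (A σ)))))) ^ 2 = F := by
      rw [sA (fun σ => f (A (A (A (A (A σ))))) ^ 2), sA (fun σ => f (A (A (A (A σ)))) ^ 2), c6]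
    have d1 : ∑ σ, (f (A (A σ)) - f (A (A (A (A σ))))) ^ 2 = E1 := by
      rw [sA (fun σ => (f (A σ) - f (A (A (A σ)))) ^ 2),
        sA (fun σ => (f σ - f (A (A σ))) ^ 2), hE1]
    have d2 : ∑ σ, (f (A (A σ)) - f (D (A σ))) ^ 2 = E2 := by
      rw [sA (fun σ => (f (A σ) - f (D σ)) ^ 2), hE2]
    rw [c1, c2, c3, c4, c5, c6, c7, c9, d1, d2, ← hE3]
    ring
  -- lower bound
  have hsA : ∑ σ, f (A σ) = 0 := by rw [sA f, hf]
  have hsq : ∑ σ, f (A σ) ^ 2 = F := by rw [sA (fun σ => f σ ^ 2), hF]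
  have hcAA : ∀ σ, chi t (A σ) = -chi t σ := fun σ => by rw [hA]; exact hcA σ
  have hcDD : ∀ σ, chi t (D σ) = -chi t σ := fun σ => by rw [hD]; exact hcD σ
  have gp := hGAP (t + 2) (fun σ => f σ + f (A σ)) (by
    rw [Finset.sum_add_distrib, hf, hsA, add_zero])
  have gm := hGAP (t + 2) (fun σ => chi t σ * (f σ - f (A σ))) (by
    have h1 : ∑ σ, chi t σ * (f σ - f (A σ)) = ∑ σ, chi t σ * f σ + ∑ σ, chi t (A σ) * f (A σ) := by
      rw [← Finset.sum_add_distrib]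
      refine Finset.sum_congr rfl fun σ _ => ?_
      rw [hcAA]
      ring
    rw [h1, sA (fun σ => chi t σ * f σ), hcf, add_zero])
  rw [← hX] at gp gm
  have qp1 : Q (t + 2) [false] (fun σ => f σ + f (A σ)) = E1 := by
    unfold Q
    rw [hE1]
    refine Finset.sum_congr rfl fun σ _ => ?_
    rw [← hA]
    ring
  have qm1 : Q (t + 2) [false] (fun σ => chi t σ * (f σ - f (A σ))) = E1 := by
    unfold Q
    rw [hE1]
    refine Finset.sum_congr rfl fun σ _ => ?_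
    rw [← hA]
    have h1 : chi t σ * (f σ - f (A σ)) - chi t (A σ) * (f (A σ) - f (A (A σ))) =
        chi t σ * (f σ - f (A (A σ))) := by
      rw [hcAA]
      ring
    rw [h1, mul_pow, hc2, one_mul]
  have qp2 : Q (t + 2) [true] (fun σ => f σ + f (A σ)) ≤ 3 * (E1 + E2 + E3) := by
    unfold Q
    rw [← hD, hE1, hE2, hE3, ← Finset.sum_add_distrib, ← Finset.sum_add_distrib, Finset.mul_sum]
    refine Finset.sum_le_sum fun σ _ => ?_
    have h1 : f σ + f (A σ) - (f (D σ) + f (A (D σ))) =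
        (f σ - f (A (A σ))) + (f (A σ) - f (D σ)) + (f (A (A σ)) - f (A (D σ))) := by ring
    show (f σ + f (A σ) - (f (D σ) + f (A (D σ)))) ^ 2 ≤ _
    rw [h1]
    exact three _ _ _
  have qm2 : Q (t + 2) [true] (fun σ => chi t σ * (f σ - f (A σ))) ≤ 3 * (E1 + E2 + E3) := by
    unfold Q
    rw [← hD, hE1, hE2, hE3, ← Finset.sum_add_distrib, ← Finset.sum_add_distrib, Finset.mul_sum]
    refine Finset.sum_le_sum fun σ _ => ?_
    have h1 : chi t σ * (f σ - f (A σ)) - chi t (D σ) * (f (D σ) - f (A (D σ))) =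
        chi t σ * ((f σ - f (A (A σ))) + -(f (A σ) - f (D σ)) + (f (A (A σ)) - f (A (D σ)))) := by
      rw [hcDD]
      ring
    show (chi t σ * (f σ - f (A σ)) - chi t (D σ) * (f (D σ) - f (A (D σ)))) ^ 2 ≤ _
    rw [h1, mul_pow, hc2, one_mul]
    have h2 := three (f σ - f (A (A σ))) (-(f (A σ) - f (D σ))) (f (A (A σ)) - f (A (D σ)))
    rw [neg_sq] at h2
    exact h2
  rw [qp1] at gp
  rw [qm1] at gm
  have hsum : (∑ σ, (f σ + f (A σ)) ^ 2) + ∑ σ, (chi t σ * (f σ - f (A σ))) ^ 2 = 4 * F := by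
    rw [← Finset.sum_add_distrib]
    have h1 : ∀ σ, (f σ + f (A σ)) ^ 2 + (chi t σ * (f σ - f (A σ))) ^ 2 =
        2 * f σ ^ 2 + 2 * f (A σ) ^ 2 := by
      intro σ
      rw [mul_pow, hc2]
      ring
    rw [Finset.sum_congr rfl fun σ _ => h1 σ, Finset.sum_add_distrib, ← Finset.mul_sum,
      ← Finset.mul_sum, hsq, ← hF]
    ring
  have hlow : F ≤ 6 * X * (E1 + E2 + E3) := by
    have h1 := mul_le_mul_of_nonneg_left qp2 (show 0 ≤ 8 / 3 * X by positivity)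
    have h2 := mul_le_mul_of_nonneg_left qm2 (show 0 ≤ 8 / 3 * X by positivity)
    have h3 : 0 ≤ X * E2 := by positivity
    have h4 : 0 ≤ X * E3 := by positivity
    nlinarith
  rw [← hF]
  have hrho : rho t = 1 - 1 / (1620 * X) := by rw [hX]; rfl
  rw [hrho]
  have hF0 : 0 ≤ F := by rw [hF]; exact Finset.sum_nonneg fun _ _ => sq_nonneg _
  have h1 : F / (1620 * X) ≤ (E1 + E2 + E3) / 81 := by
    rw [div_le_div_iff₀ (by positivity) (by norm_num)]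
    have : 0 ≤ X * (E1 + E2 + E3) := by positivity
    nlinarith
  have h2 : (1 - 1 / (1620 * X)) * F = F - F / (1620 * X) := by ring
  rw [h2]
  linarith

end Pool.Agent.H35.RW
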